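import Pool.Agent.KS6_51.BFac.Main

/-!
# The factorials of the primes in prime triplets: all the primes in no triplet contribute

`IsFactorial`, `AllPrimes`, `TripletPrimes`, `proposedRatio` are the definitions of the library module
`R_seed8/Results/MP_1b3ee4_nt/PrimeTriplets`; `excess n` is the product of `p ^ (1 + v_p(n))` over the
primes `p ≥ 5` which are in no triplet and for which `p - 1` divides `n`.
-/

set_option autoImplicit false

open Finset

namespace Pool.Agent.Results.MP_1b3ee4_nt.MissingPrimes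

open Pool.Agent.Results.MP_1b3ee4_nt.PrimeTriplets Pool.Agent.KS6_51.BFac

/-- Sixty-eight primes in triplets. -/
def T68 : List ℕ := [5, 7, 11, 13, 17, 19, 23, 41, 43, 47, 101, 103, 107, 109, 113, 191, 193, 197, 227,
  229, 233, 311, 313, 317, 347, 349, 353, 461, 463, 467, 641, 643, 647, 821, 823, 827, 857, 859, 863,
  881, 883, 887, 1091, 1093, 1097, 1277, 1279, 1283, 1301, 1303, 1307, 1427, 1429, 1433, 1481, 1483,
  1487, 1489, 1493, 1607, 1609, 1613, 1871, 1873, 1877, 1997, 1999, 2003]

lemma start {p : ℕ} (hp : p ∈ [5, 11, 17, 41, 101, 107, 191, 227, 311, 347, 461, 641, 821, 857, 881,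
    1091, 1277, 1301, 1427, 1481, 1487, 1607, 1871, 1997]) :
    p.Prime ∧ (p + 2).Prime ∧ (p + 6).Prime := by
  simp only [List.mem_cons, List.not_mem_nil, or_false] at hp
  rcases hp with rfl | rfl | rfl | rfl | rfl | rfl | rfl | rfl | rfl | rfl | rfl | rfl | rfl | rfl |
    rfl | rfl | rfl | rfl | rfl | rfl | rfl | rfl | rfl | rfl <;>
  exact ⟨by norm_num, by norm_num, by norm_num⟩

lemma T68_start : ∀ q ∈ T68, ∃ p ∈ [5, 11, 17, 41, 101, 107, 191, 227, 311, 347, 461, 641, 821, 857,
    881, 1091, 1277, 1301, 1427, 1481, 1487, 1607, 1871, 1997], q = p ∨ q = p + 2 ∨ q = p + 6 := by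
  unfold T68
  decide

lemma T68_mem : ∀ q ∈ T68, (q : ℤ) ∈ TripletPrimes := by
  intro q hq
  obtain ⟨p, hp, h⟩ := T68_start q hq
  obtain ⟨h1, h2, h3⟩ := start hp
  refine ⟨p, h1, h2, h3, ?_⟩
  rcases h with h | h | h
  · left; exact_mod_cast h
  · right; left; exact_mod_cast h
  · right; right; exact_mod_cast h

lemma T68_nodup : T68.Nodup := by unfold T68; decide

lemma exists_triplet {n : ℕ} (hn : n ≤ 67) : ∃ N, IsFactorial TripletPrimes n N := by
  have hlen : T68.length = 68 := rfl
  refine exists_factorial (n := n) (fun i => ((T68.get ⟨i, by omega⟩ : ℕ) : ℤ))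
    (fun i => T68_mem _ (List.get_mem _ _)) ?_
  intro i j hij
  have h1 : T68.get ⟨i, by omega⟩ = T68.get ⟨j, by omega⟩ := Int.ofNat_inj.1 hij
  have h2 := (List.nodup_iff_injective_get.1 T68_nodup) h1
  have h3 := congrArg Fin.val h2
  exact Fin.ext (by simpa using h3)

lemma exists_of_infinite (h : TripletPrimes.Infinite) (n : ℕ) :
    ∃ N, IsFactorial TripletPrimes n N := by
  refine exists_factorial (n := n) (fun i => (h.natEmbedding _ i : ℤ)) (fun i => Subtype.coe_prop _) ?_
  intro i j hij
  have h1 : h.natEmbedding _ (i : ℕ) = h.natEmbedding _ (j : ℕ) := Subtype.ext hij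
  exact Fin.ext ((h.natEmbedding _).injective h1)

lemma notMem {q : ℕ} (h1 : ¬ ((q + 2).Prime ∧ (q + 6).Prime)) (h2 : ¬ ((q - 2).Prime ∧ (q + 4).Prime))
    (h3 : ¬ ((q - 6).Prime ∧ (q - 4).Prime)) : ((q : ℕ) : ℤ) ∉ TripletPrimes := by
  rintro ⟨p, k1, k2, k3, h | h | h⟩
  · have : p = q := by omega
    subst this
    exact h1 ⟨k2, k3⟩
  · have : q = p + 2 := by omega
    subst this
    exact h2 ⟨k1, k3⟩
  · have : q = p + 6 := by omega
    subst this
    exact h3 ⟨k1, k2⟩

lemma fails {n p N M : ℕ} (hn : 1 ≤ n) (hp : p.Prime) (h5 : 5 ≤ p) (hpT : (p : ℤ) ∉ TripletPrimes)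
    (hd : (p - 1) ∣ n) (hN : IsFactorial TripletPrimes n N) (hM : IsFactorial AllPrimes n M) :
    M * proposedRatio n * p ^ (1 + padicValNat p n) ∣ N ∧ N ≠ M * proposedRatio n := by
  have h1 := mul_extra_dvd triplet_subset hn hN hM
  rw [extra_eq hn, ← mul_assoc] at h1
  have h2 : M * proposedRatio n * p ^ (1 + padicValNat p n) ∣ N :=
    (mul_dvd_mul_left _ (pow_dvd_excess hn hp h5 hpT hd)).trans h1
  refine ⟨h2, fun h => ?_⟩
  rw [h] at h2
  have hpos : 0 < M * proposedRatio n := Nat.pos_of_ne_zero
    (mul_ne_zero (factorization_spec hM).1 (proposedRatio_ne_zero hn))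
  have h3 := Nat.le_of_dvd hpos h2
  have h4 : 1 < p ^ (1 + padicValNat p n) := Nat.one_lt_pow (by omega) hp.one_lt
  have h5 : M * proposedRatio n * 1 < M * proposedRatio n * p ^ (1 + padicValNat p n) :=
    Nat.mul_lt_mul_of_pos_left h4 hpos
  omega

/-- **Q1 is false, and every prime in no triplet breaks the identity infinitely often.**
(i) For every `n ≥ 1` for which `n!_{P_3}` is defined, it is divisible by `n!_P` times the proposed
ratio times `∏ p ^ (1 + v_p(n))`, over all the primes `p ≥ 5` in no triplet with `(p - 1) ∣ n`.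
(ii) So the identity fails for every such `n` which is divisible by `p - 1` for some prime `p ≥ 5` in no
triplet; (iii) in particular for `n = 28, 30, 36, 52, 56, 58, 60, 66`, where the factorials are defined,
and for all multiples of these numbers for which `n!_{P_3}` is defined (for all multiples, if there are
infinitely many triplets).
(iv) If every class prime to `p` modulo a power of a prime `p` contains a prime in a triplet (as
predicted by Dickson's conjecture), then the bound (i) is an equality, so that the identity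
holds exactly for the remaining `n`. -/
theorem result :
    (∀ n N M : ℕ, 1 ≤ n → IsFactorial TripletPrimes n N → IsFactorial AllPrimes n M →
      N ≠ 0 ∧ M * proposedRatio n * excess n ∣ N) ∧
    (∀ n p N M : ℕ, 1 ≤ n → p.Prime → 5 ≤ p → (p : ℤ) ∉ TripletPrimes → (p - 1) ∣ n →
      IsFactorial TripletPrimes n N → IsFactorial AllPrimes n M →
      M * proposedRatio n * p ^ (1 + padicValNat p n) ∣ N ∧ N ≠ M * proposedRatio n) ∧
    (∀ k ∈ ({28, 30, 36, 52, 56, 58, 60, 66} : Finset ℕ),
      (∃ N M : ℕ, IsFactorial TripletPrimes k N ∧ IsFactorial AllPrimes k M) ∧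
      ∀ n N M : ℕ, 1 ≤ n → k ∣ n → IsFactorial TripletPrimes n N → IsFactorial AllPrimes n M →
        N ≠ M * proposedRatio n) ∧
    (TripletPrimes.Infinite →
      ∀ n : ℕ, ∃ N M : ℕ, IsFactorial TripletPrimes n N ∧ IsFactorial AllPrimes n M) ∧
    ((∀ p : ℕ, p.Prime → UnitDense TripletPrimes p) →
      ∀ n N M : ℕ, 1 ≤ n → IsFactorial TripletPrimes n N → IsFactorial AllPrimes n M →
        N = M * proposedRatio n * excess n ∧
        (N = M * proposedRatio n ↔
          ∀ p : ℕ, p.Prime → 5 ≤ p → (p : ℤ) ∉ TripletPrimes → ¬ (p - 1) ∣ n)) := by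
  refine ⟨fun n N M hn hN hM => ⟨(factorization_spec hN).1, ?_⟩,
    fun n p N M hn hp h5 hpT hd hN hM => fails hn hp h5 hpT hd hN hM, fun k hk => ⟨?_, ?_⟩, ?_, ?_⟩
  · have h1 := mul_extra_dvd triplet_subset hn hN hM
    rwa [extra_eq hn, ← mul_assoc] at h1
  · have hk' : k ≤ 67 := by
      simp only [mem_insert, mem_singleton] at hk
      omega
    obtain ⟨N, hN⟩ := exists_triplet hk'
    obtain ⟨M, hM⟩ := exists_all k
    exact ⟨N, M, hN, hM⟩
  · intro n N M hn hkn hN hM
    have key : ∃ p : ℕ, p.Prime ∧ 5 ≤ p ∧ (p : ℤ) ∉ TripletPrimes ∧ (p - 1) ∣ k := by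
      simp only [mem_insert, mem_singleton] at hk
      rcases hk with rfl | rfl | rfl | rfl | rfl | rfl | rfl | rfl
      · exact ⟨29, by norm_num, by norm_num, notMem (by norm_num) (by norm_num) (by norm_num),
          by norm_num⟩
      · exact ⟨31, by norm_num, by norm_num, notMem (by norm_num) (by norm_num) (by norm_num),
          by norm_num⟩
      · exact ⟨37, by norm_num, by norm_num, notMem (by norm_num) (by norm_num) (by norm_num),
          by norm_num⟩
      · exact ⟨53, by norm_num, by norm_num, notMem (by norm_num) (by norm_num) (by norm_num),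
          by norm_num⟩
      · exact ⟨29, by norm_num, by norm_num, notMem (by norm_num) (by norm_num) (by norm_num),
          by norm_num⟩
      · exact ⟨59, by norm_num, by norm_num, notMem (by norm_num) (by norm_num) (by norm_num),
          by norm_num⟩
      · exact ⟨61, by norm_num, by norm_num, notMem (by norm_num) (by norm_num) (by norm_num),
          by norm_num⟩
      · exact ⟨67, by norm_num, by norm_num, notMem (by norm_num) (by norm_num) (by norm_num),
          by norm_num⟩
    obtain ⟨p, hp, h5, hpT, hd⟩ := key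
    exact (fails hn hp h5 hpT (hd.trans hkn) hN hM).2
  · intro h n
    obtain ⟨N, hN⟩ := exists_of_infinite h n
    obtain ⟨M, hM⟩ := exists_all n
    exact ⟨N, M, hN, hM⟩
  · intro hD n N M hn hN hM
    have h1 := eq_mul_extra triplet_subset hD hn hN hM
    rw [extra_eq hn, ← mul_assoc] at h1
    refine ⟨h1, ?_⟩
    constructor
    · intro h2 p hp h5 hpT hd
      exact (fails hn hp h5 hpT hd hN hM).2 h2
    · intro h
      rw [h1, excess_eq_one h, mul_one]

end Pool.Agent.Results.MP_1b3ee4_nt.MissingPrimes
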